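import Mathlib

/-!
# The Tribonacci game: Player 2 wins for every `n ≥ 7`

The proof is a strategy stealing argument on the first moves, together with the small cases.
-/

set_option autoImplicit false
set_option linter.unusedSimpArgs false

namespace Pool.Agent.Results.MP_7f8e47_co.SecondPlayer

/-- The sequence `S 1 = 1`, `S 2 = 2`, `S 3 = 4`, `S (i + 1) = S i + S (i - 1) + S (i - 2)`
for `i ≥ 3` (the value `S 0 = 0` is never used). -/
def S : ℕ → ℕ
  | 0 => 0
  | 1 => 1
  | 2 => 2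
  | 3 => 4
  | (i + 4) => S (i + 3) + S (i + 2) + S (i + 1)

/-- `Rule A B`: a move may remove the terms in `A` and insert the terms in `B`. -/
inductive Rule : Multiset ℕ → Multiset ℕ → Prop
  | merge (i : ℕ) (hi : 3 ≤ i) : Rule {S (i - 2), S (i - 1), S i} {S (i + 1)}
  | oneOneTwo : Rule {S 1, S 1, S 2} {S 3}
  | oneOne : Rule {S 1, S 1} {S 2}
  | twoTwo : Rule {S 2, S 2} {S 3}
  | threeThree : Rule {S 3, S 3} {S 4, S 1}
  | split (i : ℕ) (hi : 4 ≤ i) : Rule {S i, S i} {S (i + 1), S (i - 3)}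

/-- `Move P Q`: there is a move from the position `P` to the position `Q`. -/
def Move (P Q : Multiset ℕ) : Prop :=
  ∃ A B R : Multiset ℕ, Rule A B ∧ P = A + R ∧ Q = B + R

/-- The player to move at `P` loses, i.e. the other player has a winning strategy: to every move
`P → Q` he has a reply `Q → R` such that the player to move again loses at `R`.  (A player without
a move loses, since the last mover wins.) -/
inductive MoverLoses : Multiset ℕ → Prop
  | intro (P : Multiset ℕ) (reply : ∀ Q : Multiset ℕ, Move P Q → Multiset ℕ)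
      (hmove : ∀ (Q : Multiset ℕ) (h : Move P Q), Move Q (reply Q h))
      (hlose : ∀ (Q : Multiset ℕ) (h : Move P Q), MoverLoses (reply Q h)) : MoverLoses P

/-- The start position of the game on `n`: `n` copies of `S 1`. -/
def start (n : ℕ) : Multiset ℕ := Multiset.replicate n (S 1)

/-! ### Termination and determinacy -/

/-- The sum of the squares of the terms. -/
def sq (P : Multiset ℕ) : ℕ := (P.map (fun x => x ^ 2)).sum

theorem sq_add (P Q : Multiset ℕ) : sq (P + Q) = sq P + sq Q := by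
  simp [sq]

theorem sq_le (P : Multiset ℕ) : sq P ≤ P.sum ^ 2 := by
  induction P using Multiset.induction with
  | empty => simp [sq]
  | cons a s ih =>
    have h : sq (a ::ₘ s) = a ^ 2 + sq s := by simp [sq]
    rw [h, Multiset.sum_cons]
    nlinarith [Nat.zero_le (a * s.sum)]

theorem S_rec (i : ℕ) : S (i + 4) = S (i + 3) + S (i + 2) + S (i + 1) := by
  rw [S]

theorem S_pos (i : ℕ) : 1 ≤ S (i + 1) := by
  induction i using Nat.strong_induction_on with
  | _ i ih =>
    match i with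
    | 0 => simp [S]
    | 1 => simp [S]
    | 2 => simp [S]
    | (j + 3) =>
      have h : 1 ≤ S (j + 3) := ih (j + 2) (by omega)
      rw [S_rec]
      omega

theorem S_big (i : ℕ) : 13 ≤ S (i + 5) := by
  induction i with
  | zero => simp [S]
  | succ j ih =>
    have h : S (j + 6) = S (j + 5) + S (j + 4) + S (j + 3) := S_rec (j + 2)
    have h' : j + 1 + 5 = j + 6 := rfl
    rw [h', h]
    omega

theorem rule_sum_sq {A B : Multiset ℕ} (h : Rule A B) : A.sum = B.sum ∧ sq A < sq B := by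
  rcases h with ⟨i, hi⟩ | _ | _ | _ | _ | ⟨i, hi⟩
  · obtain ⟨j, rfl⟩ : ∃ j, i = j + 3 := ⟨i - 3, by omega⟩
    have h1 : j + 3 - 2 = j + 1 := by omega
    have h2 : j + 3 - 1 = j + 2 := by omega
    rw [h1, h2, show j + 3 + 1 = j + 4 from rfl, S_rec]
    have p1 := S_pos j
    have p2 := S_pos (j + 1)
    have p3 := S_pos (j + 2)
    have e2 : j + 1 + 1 = j + 2 := rfl
    have e3 : j + 2 + 1 = j + 3 := rfl
    rw [e2] at p2
    rw [e3] at p3
    generalize S (j + 1) = a at *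
    generalize S (j + 2) = b at *
    generalize S (j + 3) = c at *
    constructor
    · simp; ring
    · simp [sq]
      nlinarith [Nat.mul_le_mul p1 p2]
  · simp [sq, S]
  · simp [sq, S]
  · simp [sq, S]
  · simp [sq, S]
  · obtain ⟨j, rfl⟩ : ∃ j, i = j + 4 := ⟨i - 4, by omega⟩
    have h1 : j + 4 - 3 = j + 1 := by omega
    rw [h1, show j + 4 + 1 = j + 5 from rfl]
    have r1 := S_rec j
    have r2 : S (j + 5) = S (j + 4) + S (j + 3) + S (j + 2) := S_rec (j + 1)
    have p2 := S_pos (j + 1)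
    have e2 : j + 1 + 1 = j + 2 := rfl
    rw [e2] at p2
    have p3 := S_pos (j + 2)
    have e3 : j + 2 + 1 = j + 3 := rfl
    rw [e3] at p3
    generalize S (j + 1) = a at *
    generalize S (j + 2) = b at *
    generalize S (j + 3) = c at *
    generalize S (j + 4) = d at *
    generalize S (j + 5) = e at *
    constructor
    · simp; omega
    · simp [sq]
      subst r1
      subst r2
      nlinarith [Nat.mul_le_mul p2 p3]

theorem move_sum_sq {P Q : Multiset ℕ} (h : Move P Q) : P.sum = Q.sum ∧ sq P < sq Q := by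
  obtain ⟨A, B, R, hR, rfl, rfl⟩ := h
  obtain ⟨h1, h2⟩ := rule_sum_sq hR
  rw [Multiset.sum_add, Multiset.sum_add, sq_add, sq_add]
  constructor <;> omega

/-- A measure that decreases with every move. -/
def mu (P : Multiset ℕ) : ℕ := P.sum ^ 2 - sq P

theorem mu_lt {P Q : Multiset ℕ} (h : Move P Q) : mu Q < mu P := by
  obtain ⟨h1, h2⟩ := move_sum_sq h
  have h3 := sq_le Q
  unfold mu
  rw [h1]
  omega

theorem moverLoses_iff (P : Multiset ℕ) :
    MoverLoses P ↔ ∀ Q, Move P Q → ∃ R, Move Q R ∧ MoverLoses R := by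
  constructor
  · rintro ⟨_, reply, hm, hl⟩ Q hQ
    exact ⟨reply Q hQ, hm Q hQ, hl Q hQ⟩
  · intro h
    choose reply hm hl using h
    exact ⟨P, reply, hm, hl⟩

theorem det : ∀ (N : ℕ) (P : Multiset ℕ), mu P ≤ N →
    (MoverLoses P ↔ ∀ Q, Move P Q → ¬ MoverLoses Q) := by
  intro N
  induction N with
  | zero =>
    intro P hP
    rw [moverLoses_iff]
    have hno : ∀ Q, ¬ Move P Q := fun Q hQ => by
      have := mu_lt hQ
      omega
    exact ⟨fun _ Q hQ => absurd hQ (hno Q), fun _ Q hQ => absurd hQ (hno Q)⟩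
  | succ N ih =>
    intro P hP
    have hQs : ∀ Q, Move P Q → (MoverLoses Q ↔ ∀ R, Move Q R → ¬ MoverLoses R) := fun Q hQ =>
      ih Q (by have := mu_lt hQ; omega)
    rw [moverLoses_iff]
    constructor
    · intro h Q hQ hL
      obtain ⟨R, hR, hRL⟩ := h Q hQ
      exact (hQs Q hQ).1 hL R hR hRL
    · intro h Q hQ
      by_contra hc
      push Not at hc
      exact h Q hQ ((hQs Q hQ).2 hc)

theorem loses_iff (P : Multiset ℕ) : MoverLoses P ↔ ∀ Q, Move P Q → ¬ MoverLoses Q :=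
  det (mu P) P le_rfl

/-! ### Positions with small terms -/

/-- `k` copies of `1`, `b` copies of `2`, `c` copies of `4` and `d` copies of `7`. -/
def pos (k b c d : ℕ) : Multiset ℕ :=
  Multiset.replicate k 1 + Multiset.replicate b 2 + Multiset.replicate c 4 + Multiset.replicate d 7

theorem count_pos (k b c d x : ℕ) : (pos k b c d).count x =
    (if x = 1 then k else 0) + (if x = 2 then b else 0) + (if x = 4 then c else 0) +
      (if x = 7 then d else 0) := by
  unfold pos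
  simp only [Multiset.count_add, Multiset.count_replicate]
  simp only [eq_comm]

theorem S1 : S 1 = 1 := rfl
theorem S2 : S 2 = 2 := rfl
theorem S3 : S 3 = 4 := rfl
theorem S4 : S 4 = 7 := rfl

theorem move_pos (k b c d : ℕ) (hd : d ≤ 1) (hbcd : b = 0 ∨ c = 0 ∨ d = 0) (Q : Multiset ℕ) :
    Move (pos k b c d) Q ↔
      (2 ≤ k ∧ Q = pos (k - 2) (b + 1) c d) ∨ (2 ≤ k ∧ 1 ≤ b ∧ Q = pos (k - 2) (b - 1) (c + 1) d) ∨
      (2 ≤ b ∧ Q = pos k (b - 2) (c + 1) d) ∨ (2 ≤ c ∧ Q = pos (k + 1) b (c - 2) (d + 1)) ∨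
      (1 ≤ k ∧ 1 ≤ b ∧ 1 ≤ c ∧ Q = pos (k - 1) (b - 1) (c - 1) (d + 1)) := by
  constructor
  · rintro ⟨A, B, R, hR, hP, rfl⟩
    have hcount : ∀ x, (pos k b c d).count x = A.count x + R.count x := by
      intro x; rw [hP, Multiset.count_add]
    rcases hR with ⟨i, hi⟩ | _ | _ | _ | _ | ⟨i, hi⟩
    · -- merge
      rcases (by omega : i = 3 ∨ i = 4 ∨ 5 ≤ i) with rfl | rfl | h5
      · refine Or.inr (Or.inr (Or.inr (Or.inr ?_)))
        have h1 := hcount 1
        have h2 := hcount 2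
        have h4 := hcount 4
        rw [count_pos] at h1 h2 h4
        simp [S1, S2, S3] at h1 h2 h4
        refine ⟨by omega, by omega, by omega, ?_⟩
        ext x
        have hx := hcount x
        rw [count_pos] at hx
        rw [Multiset.count_add, count_pos]
        simp only [S1, S2, S3, S4, Multiset.insert_eq_cons, Multiset.count_cons,
          Multiset.count_singleton, Nat.reduceSub, Nat.reduceAdd] at hx ⊢
        split_ifs at hx ⊢ <;> omega
      · exfalso
        have h2 := hcount 2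
        have h4 := hcount 4
        have h7 := hcount 7
        rw [count_pos] at h2 h4 h7
        simp [S2, S3, S4] at h2 h4 h7
        omega
      · exfalso
        obtain ⟨j, rfl⟩ : ∃ j, i = j + 5 := ⟨i - 5, by omega⟩
        have h := hcount (S (j + 5))
        have hb := S_big j
        rw [count_pos, if_neg (by omega), if_neg (by omega), if_neg (by omega),
          if_neg (by omega)] at h
        have h1 : 1 ≤ Multiset.count (S (j + 5)) {S (j + 5 - 2), S (j + 5 - 1), S (j + 5)} :=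
          Multiset.one_le_count_iff_mem.2 (by simp)
        omega
    · refine Or.inr (Or.inl ?_)
      have h1 := hcount 1
      have h2 := hcount 2
      rw [count_pos] at h1 h2
      simp [S1, S2] at h1 h2
      refine ⟨by omega, by omega, ?_⟩
      ext x
      have hx := hcount x
      rw [count_pos] at hx
      rw [Multiset.count_add, count_pos]
      simp only [S1, S2, S3, S4, Multiset.insert_eq_cons, Multiset.count_cons,
        Multiset.count_singleton] at hx ⊢
      split_ifs at hx ⊢ <;> omega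
    · refine Or.inl ?_
      have h1 := hcount 1
      rw [count_pos] at h1
      simp [S1] at h1
      refine ⟨by omega, ?_⟩
      ext x
      have hx := hcount x
      rw [count_pos] at hx
      rw [Multiset.count_add, count_pos]
      simp only [S1, S2, S3, S4, Multiset.insert_eq_cons, Multiset.count_cons,
        Multiset.count_singleton] at hx ⊢
      split_ifs at hx ⊢ <;> omega
    · refine Or.inr (Or.inr (Or.inl ?_))
      have h2 := hcount 2
      rw [count_pos] at h2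
      simp [S2] at h2
      refine ⟨by omega, ?_⟩
      ext x
      have hx := hcount x
      rw [count_pos] at hx
      rw [Multiset.count_add, count_pos]
      simp only [S1, S2, S3, S4, Multiset.insert_eq_cons, Multiset.count_cons,
        Multiset.count_singleton] at hx ⊢
      split_ifs at hx ⊢ <;> omega
    · refine Or.inr (Or.inr (Or.inr (Or.inl ?_)))
      have h4 := hcount 4
      rw [count_pos] at h4
      simp [S3] at h4
      refine ⟨by omega, ?_⟩
      ext x
      have hx := hcount x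
      rw [count_pos] at hx
      rw [Multiset.count_add, count_pos]
      simp only [S1, S2, S3, S4, Multiset.insert_eq_cons, Multiset.count_cons,
        Multiset.count_singleton] at hx ⊢
      split_ifs at hx ⊢ <;> omega
    · exfalso
      rcases (by omega : i = 4 ∨ 5 ≤ i) with rfl | h5
      · have h7 := hcount 7
        rw [count_pos] at h7
        simp [S4] at h7
        omega
      · obtain ⟨j, rfl⟩ : ∃ j, i = j + 5 := ⟨i - 5, by omega⟩
        have h := hcount (S (j + 5))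
        have hb := S_big j
        rw [count_pos, if_neg (by omega), if_neg (by omega), if_neg (by omega),
          if_neg (by omega)] at h
        have h1 : 1 ≤ Multiset.count (S (j + 5)) {S (j + 5), S (j + 5)} :=
          Multiset.one_le_count_iff_mem.2 (by simp)
        omega
  · rintro (⟨h1, rfl⟩ | ⟨h1, h2, rfl⟩ | ⟨h1, rfl⟩ | ⟨h1, rfl⟩ | ⟨h1, h2, h3, rfl⟩)
    · refine ⟨_, _, pos (k - 2) b c d, Rule.oneOne, ?_, ?_⟩
      all_goals
        ext x
        rw [Multiset.count_add, count_pos, count_pos]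
        simp only [S1, S2, S3, S4, Multiset.insert_eq_cons, Multiset.count_cons,
          Multiset.count_singleton]
        split_ifs <;> omega
    · refine ⟨_, _, pos (k - 2) (b - 1) c d, Rule.oneOneTwo, ?_, ?_⟩
      all_goals
        ext x
        rw [Multiset.count_add, count_pos, count_pos]
        simp only [S1, S2, S3, S4, Multiset.insert_eq_cons, Multiset.count_cons,
          Multiset.count_singleton]
        split_ifs <;> omega
    · refine ⟨_, _, pos k (b - 2) c d, Rule.twoTwo, ?_, ?_⟩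
      all_goals
        ext x
        rw [Multiset.count_add, count_pos, count_pos]
        simp only [S1, S2, S3, S4, Multiset.insert_eq_cons, Multiset.count_cons,
          Multiset.count_singleton]
        split_ifs <;> omega
    · refine ⟨_, _, pos k b (c - 2) d, Rule.threeThree, ?_, ?_⟩
      all_goals
        ext x
        rw [Multiset.count_add, count_pos, count_pos]
        simp only [S1, S2, S3, S4, Multiset.insert_eq_cons, Multiset.count_cons,
          Multiset.count_singleton]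
        split_ifs <;> omega
    · refine ⟨_, _, pos (k - 1) (b - 1) (c - 1) d, Rule.merge 3 le_rfl, ?_, ?_⟩
      all_goals
        ext x
        rw [Multiset.count_add, count_pos, count_pos]
        simp only [S1, S2, S3, S4, Multiset.insert_eq_cons, Multiset.count_cons,
          Multiset.count_singleton, Nat.reduceSub, Nat.reduceAdd]
        split_ifs <;> omega

/-- The mover loses at `pos k b c d`. -/
def L (k b c d : ℕ) : Prop := MoverLoses (pos k b c d)

theorem L_iff (k b c d : ℕ) (hd : d ≤ 1) (hbcd : b = 0 ∨ c = 0 ∨ d = 0) :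
    L k b c d ↔ (2 ≤ k → ¬ L (k - 2) (b + 1) c d) ∧ (2 ≤ k → 1 ≤ b → ¬ L (k - 2) (b - 1) (c + 1) d) ∧
      (2 ≤ b → ¬ L k (b - 2) (c + 1) d) ∧ (2 ≤ c → ¬ L (k + 1) b (c - 2) (d + 1)) ∧
      (1 ≤ k → 1 ≤ b → 1 ≤ c → ¬ L (k - 1) (b - 1) (c - 1) (d + 1)) := by
  unfold L
  rw [loses_iff]
  simp only [move_pos k b c d hd hbcd]
  constructor
  · intro h
    exact ⟨fun h1 => h _ (Or.inl ⟨h1, rfl⟩), fun h1 h2 => h _ (Or.inr (Or.inl ⟨h1, h2, rfl⟩)),
      fun h1 => h _ (Or.inr (Or.inr (Or.inl ⟨h1, rfl⟩))),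
      fun h1 => h _ (Or.inr (Or.inr (Or.inr (Or.inl ⟨h1, rfl⟩)))),
      fun h1 h2 h3 => h _ (Or.inr (Or.inr (Or.inr (Or.inr ⟨h1, h2, h3, rfl⟩))))⟩
  · rintro ⟨h1, h2, h3, h4, h5⟩ Q (⟨e1, rfl⟩ | ⟨e1, e2, rfl⟩ | ⟨e1, rfl⟩ | ⟨e1, rfl⟩ | ⟨e1, e2, e3, rfl⟩)
    · exact h1 e1
    · exact h2 e1 e2
    · exact h3 e1
    · exact h4 e1
    · exact h5 e1 e2 e3

theorem start_eq (n : ℕ) : start n = pos n 0 0 0 := by
  simp [start, pos, S1]

/-- The strategy stealing argument. -/
theorem large (m : ℕ) : L (m + 10) 0 0 0 := by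
  by_contra h0
  have e0 := L_iff (m + 10) 0 0 0 (by omega) (by omega)
  have e1 := L_iff (m + 8) 1 0 0 (by omega) (by omega)
  have e2 := L_iff (m + 6) 0 1 0 (by omega) (by omega)
  have e3 := L_iff (m + 4) 1 1 0 (by omega) (by omega)
  have e4 := L_iff (m + 3) 0 0 1 (by omega) (by omega)
  have e5 := L_iff (m + 2) 0 2 0 (by omega) (by omega)
  have e6 := L_iff m 1 2 0 (by omega) (by omega)
  simp at e0 e1 e2 e3 e4 e5 e6
  tauto

/-! ### The small cases -/

theorem l_1_0_0_0 : L 1 0 0 0 := by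
  rw [L_iff _ _ _ _ (by omega) (by omega)]
  simp

theorem l_0_1_0_0 : L 0 1 0 0 := by
  rw [L_iff _ _ _ _ (by omega) (by omega)]
  simp

theorem l_2_0_0_0 : ¬ L 2 0 0 0 := by
  rw [L_iff _ _ _ _ (by omega) (by omega)]
  simp [l_0_1_0_0]

theorem l_1_1_0_0 : L 1 1 0 0 := by
  rw [L_iff _ _ _ _ (by omega) (by omega)]
  simp

theorem l_3_0_0_0 : ¬ L 3 0 0 0 := by
  rw [L_iff _ _ _ _ (by omega) (by omega)]
  simp [l_1_1_0_0]

theorem l_0_0_1_0 : L 0 0 1 0 := by
  rw [L_iff _ _ _ _ (by omega) (by omega)]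
  simp

theorem l_0_2_0_0 : ¬ L 0 2 0 0 := by
  rw [L_iff _ _ _ _ (by omega) (by omega)]
  simp [l_0_0_1_0]

theorem l_2_1_0_0 : ¬ L 2 1 0 0 := by
  rw [L_iff _ _ _ _ (by omega) (by omega)]
  simp [l_0_2_0_0, l_0_0_1_0]

theorem l_4_0_0_0 : L 4 0 0 0 := by
  rw [L_iff _ _ _ _ (by omega) (by omega)]
  simp [l_2_1_0_0]

theorem l_1_0_1_0 : L 1 0 1 0 := by
  rw [L_iff _ _ _ _ (by omega) (by omega)]
  simp

theorem l_1_2_0_0 : ¬ L 1 2 0 0 := by
  rw [L_iff _ _ _ _ (by omega) (by omega)]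
  simp [l_1_0_1_0]

theorem l_3_1_0_0 : ¬ L 3 1 0 0 := by
  rw [L_iff _ _ _ _ (by omega) (by omega)]
  simp [l_1_2_0_0, l_1_0_1_0]

theorem l_5_0_0_0 : L 5 0 0 0 := by
  rw [L_iff _ _ _ _ (by omega) (by omega)]
  simp [l_3_1_0_0]

theorem l_0_1_1_0 : L 0 1 1 0 := by
  rw [L_iff _ _ _ _ (by omega) (by omega)]
  simp

theorem l_0_3_0_0 : ¬ L 0 3 0 0 := by
  rw [L_iff _ _ _ _ (by omega) (by omega)]
  simp [l_0_1_1_0]

theorem l_2_0_1_0 : ¬ L 2 0 1 0 := by
  rw [L_iff _ _ _ _ (by omega) (by omega)]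
  simp [l_0_1_1_0]

theorem l_2_2_0_0 : ¬ L 2 2 0 0 := by
  rw [L_iff _ _ _ _ (by omega) (by omega)]
  simp [l_0_3_0_0, l_0_1_1_0, l_2_0_1_0]

theorem l_4_1_0_0 : L 4 1 0 0 := by
  rw [L_iff _ _ _ _ (by omega) (by omega)]
  simp [l_2_2_0_0, l_2_0_1_0]

theorem l_6_0_0_0 : ¬ L 6 0 0 0 := by
  rw [L_iff _ _ _ _ (by omega) (by omega)]
  simp [l_4_1_0_0]

theorem l_0_0_0_1 : L 0 0 0 1 := by
  rw [L_iff _ _ _ _ (by omega) (by omega)]
  simp

theorem l_1_1_1_0 : ¬ L 1 1 1 0 := by
  rw [L_iff _ _ _ _ (by omega) (by omega)]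
  simp [l_0_0_0_1]

theorem l_1_3_0_0 : L 1 3 0 0 := by
  rw [L_iff _ _ _ _ (by omega) (by omega)]
  simp [l_1_1_1_0]

theorem l_3_0_1_0 : L 3 0 1 0 := by
  rw [L_iff _ _ _ _ (by omega) (by omega)]
  simp [l_1_1_1_0]

theorem l_3_2_0_0 : ¬ L 3 2 0 0 := by
  rw [L_iff _ _ _ _ (by omega) (by omega)]
  simp [l_1_3_0_0, l_1_1_1_0, l_3_0_1_0]

theorem l_5_1_0_0 : ¬ L 5 1 0 0 := by
  rw [L_iff _ _ _ _ (by omega) (by omega)]
  simp [l_3_2_0_0, l_3_0_1_0]

theorem l_7_0_0_0 : L 7 0 0 0 := by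
  rw [L_iff _ _ _ _ (by omega) (by omega)]
  simp [l_5_1_0_0]

theorem l_1_0_0_1 : L 1 0 0 1 := by
  rw [L_iff _ _ _ _ (by omega) (by omega)]
  simp

theorem l_0_0_2_0 : ¬ L 0 0 2 0 := by
  rw [L_iff _ _ _ _ (by omega) (by omega)]
  simp [l_1_0_0_1]

theorem l_0_2_1_0 : L 0 2 1 0 := by
  rw [L_iff _ _ _ _ (by omega) (by omega)]
  simp [l_0_0_2_0]

theorem l_0_4_0_0 : ¬ L 0 4 0 0 := by
  rw [L_iff _ _ _ _ (by omega) (by omega)]
  simp [l_0_2_1_0]

theorem l_2_1_1_0 : ¬ L 2 1 1 0 := by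
  rw [L_iff _ _ _ _ (by omega) (by omega)]
  simp [l_0_2_1_0, l_0_0_2_0, l_1_0_0_1]

theorem l_2_3_0_0 : ¬ L 2 3 0 0 := by
  rw [L_iff _ _ _ _ (by omega) (by omega)]
  simp [l_0_4_0_0, l_0_2_1_0, l_2_1_1_0]

theorem l_4_0_1_0 : L 4 0 1 0 := by
  rw [L_iff _ _ _ _ (by omega) (by omega)]
  simp [l_2_1_1_0]

theorem l_4_2_0_0 : ¬ L 4 2 0 0 := by
  rw [L_iff _ _ _ _ (by omega) (by omega)]
  simp [l_2_3_0_0, l_2_1_1_0, l_4_0_1_0]

theorem l_6_1_0_0 : ¬ L 6 1 0 0 := by
  rw [L_iff _ _ _ _ (by omega) (by omega)]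
  simp [l_4_2_0_0, l_4_0_1_0]

theorem l_8_0_0_0 : L 8 0 0 0 := by
  rw [L_iff _ _ _ _ (by omega) (by omega)]
  simp [l_6_1_0_0]

theorem l_0_1_0_1 : L 0 1 0 1 := by
  rw [L_iff _ _ _ _ (by omega) (by omega)]
  simp

theorem l_2_0_0_1 : ¬ L 2 0 0 1 := by
  rw [L_iff _ _ _ _ (by omega) (by omega)]
  simp [l_0_1_0_1]

theorem l_1_0_2_0 : L 1 0 2 0 := by
  rw [L_iff _ _ _ _ (by omega) (by omega)]
  simp [l_2_0_0_1]

theorem l_1_2_1_0 : ¬ L 1 2 1 0 := by
  rw [L_iff _ _ _ _ (by omega) (by omega)]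
  simp [l_1_0_2_0, l_0_1_0_1]

theorem l_1_4_0_0 : L 1 4 0 0 := by
  rw [L_iff _ _ _ _ (by omega) (by omega)]
  simp [l_1_2_1_0]

theorem l_3_1_1_0 : ¬ L 3 1 1 0 := by
  rw [L_iff _ _ _ _ (by omega) (by omega)]
  simp [l_1_2_1_0, l_1_0_2_0, l_2_0_0_1]

theorem l_3_3_0_0 : ¬ L 3 3 0 0 := by
  rw [L_iff _ _ _ _ (by omega) (by omega)]
  simp [l_1_4_0_0, l_1_2_1_0, l_3_1_1_0]

theorem l_5_0_1_0 : L 5 0 1 0 := by
  rw [L_iff _ _ _ _ (by omega) (by omega)]
  simp [l_3_1_1_0]

theorem l_5_2_0_0 : ¬ L 5 2 0 0 := by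
  rw [L_iff _ _ _ _ (by omega) (by omega)]
  simp [l_3_3_0_0, l_3_1_1_0, l_5_0_1_0]

theorem l_7_1_0_0 : ¬ L 7 1 0 0 := by
  rw [L_iff _ _ _ _ (by omega) (by omega)]
  simp [l_5_2_0_0, l_5_0_1_0]

theorem l_9_0_0_0 : L 9 0 0 0 := by
  rw [L_iff _ _ _ _ (by omega) (by omega)]
  simp [l_7_1_0_0]

/-- **The Tribonacci game.** For every `n ≥ 1`, Player 2 has a winning strategy in the game on `n`
if and only if `n` is not `2`, `3` or `6`.  In particular he wins for every `n ≥ 7`. -/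
theorem result (n : ℕ) (hn : 1 ≤ n) : MoverLoses (start n) ↔ (n ≠ 2 ∧ n ≠ 3 ∧ n ≠ 6) := by
  rw [start_eq]
  change L n 0 0 0 ↔ _
  rcases Nat.lt_or_ge n 10 with h | h
  · interval_cases n
    all_goals simp [l_1_0_0_0, l_2_0_0_0, l_3_0_0_0, l_4_0_0_0, l_5_0_0_0, l_6_0_0_0, l_7_0_0_0, l_8_0_0_0, l_9_0_0_0]
  · obtain ⟨m, rfl⟩ : ∃ m, n = m + 10 := ⟨n - 10, by omega⟩
    have := large m
    simp [this]

end Pool.Agent.Results.MP_7f8e47_co.SecondPlayer
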